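import Pool.Agent.helper82.LEQ.Spec

set_option autoImplicit false

/-!
# Row lq:MAIN: the assembly of the elimination of components
-/

namespace LEQ

open scoped BigOperators
open QS (Lef EAb)

theorem MAIN_Cn_bot {G : Type} [Group G] (N : Subgroup G) : N ⊓ Cn (⊥ : Subgroup G) = N := by
  rw [inf_eq_left]
  intro g _
  unfold Cn
  rw [Subgroup.mem_centralizer_iff]
  intro h hh
  rw [SetLike.mem_coe, Subgroup.mem_bot] at hh
  rw [hh, one_mul, mul_one]

theorem MAIN_mem {G : Type} [Group G] {N F : Subgroup G} {g : G} :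
    g ∈ N ⊓ Cn F ↔ g ∈ N ∧ ∀ x ∈ F, g * x = x * g := by
  rw [Subgroup.mem_inf]
  unfold Cn
  rw [Subgroup.mem_centralizer_iff]
  constructor
  · rintro ⟨h1, h2⟩
    exact ⟨h1, fun x hx => (h2 x hx).symm⟩
  · rintro ⟨h1, h2⟩
    exact ⟨h1, fun x hx => (h2 x hx).symm⟩

/-- MAIN. -/
theorem MAIN (hNF : NF_stmt) (hLM : LM_stmt) (hD2 : D2_stmt) (hCA1 : CA1_stmt) (hCA2 : CA2_stmt)
    (hEMP : EMP_stmt) (hFAC : FAC_stmt) : MAIN_stmt := by
  intro G _ _ p hp ι _ L hL U hU hA hB ⟨c, hc, hcn⟩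
  by_contra hcon
  push Not at hcon
  obtain ⟨z, hz1, hz2⟩ : ∃ z : ℂ, z ^ p = 1 ∧ z ≠ 1 := by
    have := Complex.isPrimitiveRoot_exp p hp.ne_zero
    exact ⟨_, this.pow_eq_one, this.ne_one hp.one_lt⟩
  obtain ⟨hN, _, _⟩ := hNF G p hp ι L hL
  have h0 : ∀ g, Ls p (⊤ : Subgroup G) g = 0 := fun g => by rw [← hLM]; exact hcon g
  have key : ∑ g ∈ FS (fun g : G => g ∈ Np L), wt L U z c g * (Ls p (⊤ : Subgroup G) g : ℂ) =
      ∑ F ∈ FS (fun F : Subgroup G => EAb p F ∧ F ⊓ Np L = ⊥),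
        (Mb 1 F : ℂ) * TT L p U z c (Np L ⊓ Cn F) := by
    have h1 : ∀ g ∈ FS (fun g : G => g ∈ Np L),
        wt L U z c g * (Ls p (⊤ : Subgroup G) g : ℂ) =
        ∑ F ∈ FS (fun F : Subgroup G => EAb p F ∧ F ⊓ Np L = ⊥ ∧ ∀ x ∈ F, g * x = x * g),
          (Mb 1 F : ℂ) * (wt L U z c g * (Ls p (Np L ⊓ Cn F) g : ℂ)) := by
      intro g hg
      rw [mem_FS] at hg
      rw [hD2 G p (Np L) hN g hg, Int.cast_sum, Finset.mul_sum]
      refine Finset.sum_congr rfl fun F _ => ?_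
      push_cast
      ring
    rw [Finset.sum_congr rfl h1, Finset.sum_comm'
      (s' := fun F : Subgroup G => FS (fun g : G => g ∈ Np L ⊓ Cn F))
      (t' := FS (fun F : Subgroup G => EAb p F ∧ F ⊓ Np L = ⊥))]
    · refine Finset.sum_congr rfl fun F _ => ?_
      unfold TT
      rw [Finset.mul_sum]
    · intro g F
      rw [mem_FS, mem_FS, mem_FS, mem_FS, MAIN_mem]
      tauto
  have hbot : EAb p (⊥ : Subgroup G) := by
    refine ⟨fun x hx y hy => ?_, fun x hx => ?_⟩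
    · rw [Subgroup.mem_bot] at hx hy
      rw [hx, hy]
    · rw [Subgroup.mem_bot] at hx
      rw [hx, one_pow]
  rw [Finset.sum_eq_single (⊥ : Subgroup G)] at key
  · have hnz : ∀ i, Nz (⊥ : Subgroup G) (L i) := by
      intro i e he x
      rw [Subgroup.mem_bot] at he
      rw [he, one_mul, inv_one, mul_one]
    rw [hCA2 G p hp ι L hL U hU z c hc ⊥ hbot hnz, MAIN_Cn_bot] at key
    have h2 := hFAC G p hp ι L hL U hU c hc hA hcn
    have h3 : (∑ g ∈ GU L U c (Np L), (Ls p (Np L) g : ℂ)) ≠ 0 := by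
      rw [← Int.cast_sum]
      exact_mod_cast h2
    have h4 : (Mb 1 (⊥ : Subgroup G) : ℂ) = 1 := by
      unfold Mb
      rw [if_pos rfl]
      simp
    rw [h4, one_mul] at key
    have h5 : ∑ g ∈ FS (fun g : G => g ∈ Np L), wt L U z c g * (Ls p (⊤ : Subgroup G) g : ℂ) = 0 := by
      refine Finset.sum_eq_zero fun g _ => ?_
      rw [h0]
      simp
    rw [h5] at key
    exact mul_ne_zero (pow_ne_zero _ (sub_ne_zero.2 hz2)) h3 key.symm
  · intro F hF hF0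
    rw [mem_FS] at hF
    by_cases hn : ∀ i, Nz F (L i)
    · rw [hCA2 G p hp ι L hL U hU z c hc F hF.1 hn, hEMP G p hp ι L hL U hU hB c F hF.1 hF.2 hn hF0]
      simp
    · push Not at hn
      obtain ⟨i₀, hi₀⟩ := hn
      rw [hCA1 G p hp ι L hL U hU z hz1 c hc F hF.1 i₀ hi₀, mul_zero]
  · intro h
    exfalso
    apply h
    rw [mem_FS]
    exact ⟨hbot, bot_inf_eq _⟩

end LEQ
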