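import Pool.Agent.helper82.LEQ.Spec

set_option autoImplicit false

/-!
# Row lq:W4: correspondence theorem for `M / P₀`
-/

namespace LEQ

open scoped BigOperators
open QS (Lef EAb)

/-- transport of `XS` along an order embedding -/
theorem W4_XS {α β : Type} [PartialOrder α] [Finite α] [PartialOrder β] [Finite β]
    (P : α → Prop) (Q : β → Prop) (g : β ↪o α) (h : ∀ x, P x ↔ ∃ y, Q y ∧ g y = x) :
    XS P = XS Q := by
  unfold XS
  symm
  refine Finset.sum_bij (fun s _ => s.map g.toEmbedding) ?_ ?_ ?_ ?_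
  · intro s hs
    rw [mem_FS] at hs ⊢
    refine ⟨?_, ?_⟩
    · intro x hx y hy hxy
      rw [Finset.mem_coe, Finset.mem_map] at hx hy
      obtain ⟨a, ha, rfl⟩ := hx
      obtain ⟨b, hb, rfl⟩ := hy
      have hab : a ≠ b := fun h => hxy (by rw [h])
      rcases hs.1 ha hb hab with h1 | h1
      · exact Or.inl (g.le_iff_le.2 h1)
      · exact Or.inr (g.le_iff_le.2 h1)
    · intro x hx
      rw [Finset.mem_map] at hx
      obtain ⟨a, ha, rfl⟩ := hx
      exact (h _).2 ⟨a, hs.2 a ha, rfl⟩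
  · intro s _ t _ hst
    exact Finset.map_injective _ hst
  · intro t ht
    rw [mem_FS] at ht
    refine ⟨FS (fun y => g y ∈ t), ?_, ?_⟩
    · rw [mem_FS]
      refine ⟨?_, ?_⟩
      · intro x hx y hy hxy
        rw [Finset.mem_coe, mem_FS] at hx hy
        rcases ht.1 hx hy (fun h => hxy (g.injective h)) with h1 | h1
        · exact Or.inl (g.le_iff_le.1 h1)
        · exact Or.inr (g.le_iff_le.1 h1)
      · intro x hx
        rw [mem_FS] at hx
        obtain ⟨y, hy, hxy⟩ := (h _).1 (ht.2 _ hx)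
        rw [← g.injective hxy]
        exact hy
    · ext x
      rw [Finset.mem_map]
      constructor
      · rintro ⟨y, hy, rfl⟩
        rw [mem_FS] at hy
        exact hy
      · intro hx
        obtain ⟨y, _, hxy⟩ := (h _).1 (ht.2 _ hx)
        refine ⟨y, ?_, hxy⟩
        rw [mem_FS, hxy]
        exact hx
  · intro s _
    rw [Finset.card_map]

section
variable {G : Type} [Group G] (P₀ M : Subgroup G) [hn : (P₀.subgroupOf M).Normal]

/-- the preimage in `G` of a subgroup of `M / P₀` -/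
def W4_g (Q : Subgroup (M ⧸ P₀.subgroupOf M)) : Subgroup G :=
  (Q.comap (QuotientGroup.mk' (P₀.subgroupOf M))).map M.subtype

theorem W4_mem {Q : Subgroup (M ⧸ P₀.subgroupOf M)} {x : G} :
    x ∈ W4_g P₀ M Q ↔ ∃ hx : x ∈ M, ((⟨x, hx⟩ : M) : M ⧸ P₀.subgroupOf M) ∈ Q := by
  unfold W4_g
  rw [Subgroup.mem_map]
  constructor
  · rintro ⟨y, hy, rfl⟩
    exact ⟨y.2, hy⟩
  · rintro ⟨hx, h⟩
    exact ⟨⟨x, hx⟩, h, rfl⟩

theorem W4_le {Q Q' : Subgroup (M ⧸ P₀.subgroupOf M)} :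
    W4_g P₀ M Q ≤ W4_g P₀ M Q' ↔ Q ≤ Q' := by
  constructor
  · intro h q hq
    obtain ⟨⟨x, hx⟩, rfl⟩ := QuotientGroup.mk_surjective q
    obtain ⟨_, h2⟩ := (W4_mem P₀ M).1 (h ((W4_mem P₀ M).2 ⟨hx, hq⟩))
    exact h2
  · intro h x hx
    rw [W4_mem] at hx ⊢
    exact ⟨hx.1, h hx.2⟩

/-- the order embedding -/
def W4_e : Subgroup (M ⧸ P₀.subgroupOf M) ↪o Subgroup G where
  toFun := W4_g P₀ M
  inj' := fun _ _ h => le_antisymm ((W4_le P₀ M).1 h.le) ((W4_le P₀ M).1 h.ge)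
  map_rel_iff' := W4_le P₀ M

end

/-- W4. -/
theorem W4 (hW1 : W1_stmt) : W4_stmt := by
  intro G _ _ p hp P₀ M hP₀ hM hn h
  rw [hW1 _ p hp]
  have hPM : P₀ ≤ M := by rw [hM]; exact Subgroup.le_normalizer
  refine W4_XS _ _ (W4_e P₀ M) fun P => ?_
  constructor
  · rintro ⟨⟨h1, h2, h3⟩, h4⟩
    have hmem : ∀ (x : G) (hx : x ∈ M), ((⟨x, hx⟩ : M) : M ⧸ P₀.subgroupOf M) ∈
        (P.subgroupOf M).map (QuotientGroup.mk' (P₀.subgroupOf M)) ↔ x ∈ P := by
      intro x hx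
      rw [Subgroup.mem_map]
      constructor
      · rintro ⟨y, hy, hxy⟩
        have h5 : (y : M ⧸ P₀.subgroupOf M) = ((⟨x, hx⟩ : M) : M ⧸ P₀.subgroupOf M) := hxy
        rw [QuotientGroup.eq, Subgroup.mem_subgroupOf] at h5
        rw [Subgroup.mem_subgroupOf] at hy
        have h6 : (y : G)⁻¹ * x ∈ P := h1.le h5
        have := P.mul_mem hy h6
        rwa [mul_inv_cancel_left] at this
      · intro h5
        exact ⟨⟨x, hx⟩, h5, rfl⟩
    refine ⟨(P.subgroupOf M).map (QuotientGroup.mk' (P₀.subgroupOf M)), ⟨?_, ?_, ?_⟩, ?_⟩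
    · intro h5
      apply h1.not_ge
      intro x hx
      have h6 := (hmem x (h4 hx)).2 hx
      rw [h5, Subgroup.mem_bot, QuotientGroup.eq_one_iff, Subgroup.mem_subgroupOf] at h6
      exact h6
    · exact (h2.comap_subtype).map _
    · intro q
      obtain ⟨⟨x, hx⟩, rfl⟩ := QuotientGroup.mk_surjective q
      have h5 : (h : M ⧸ P₀.subgroupOf M) * ((⟨x, hx⟩ : M) : M ⧸ P₀.subgroupOf M) *
          (h : M ⧸ P₀.subgroupOf M)⁻¹ =
          ((⟨(h : G) * x * (h : G)⁻¹, M.mul_mem (M.mul_mem h.2 hx) (M.inv_mem h.2)⟩ : M) :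
            M ⧸ P₀.subgroupOf M) := rfl
      rw [h5, hmem, hmem]
      exact h3 x
    · show W4_g P₀ M _ = P
      ext x
      rw [W4_mem]
      constructor
      · rintro ⟨hx, h5⟩
        exact (hmem x hx).1 h5
      · intro hx
        exact ⟨h4 hx, (hmem x (h4 hx)).2 hx⟩
  · rintro ⟨Q, ⟨h1, h2, h3⟩, rfl⟩
    show (P₀ < W4_g P₀ M Q ∧ IsPGroup p (W4_g P₀ M Q) ∧ Stb (h : G) (W4_g P₀ M Q)) ∧ W4_g P₀ M Q ≤ M
    have h4 : W4_g P₀ M Q ≤ M := by
      intro x hx
      exact ((W4_mem P₀ M).1 hx).1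
    refine ⟨⟨lt_of_le_of_ne ?_ ?_, ?_, ?_⟩, h4⟩
    · intro x hx
      rw [W4_mem]
      refine ⟨hPM hx, ?_⟩
      have : ((⟨x, hPM hx⟩ : M) : M ⧸ P₀.subgroupOf M) = 1 := by
        rw [QuotientGroup.eq_one_iff, Subgroup.mem_subgroupOf]
        exact hx
      rw [this]
      exact Q.one_mem
    · intro h5
      apply h1
      rw [Subgroup.eq_bot_iff_forall]
      intro q hq
      obtain ⟨⟨x, hx⟩, rfl⟩ := QuotientGroup.mk_surjective q
      have h6 : x ∈ W4_g P₀ M Q := (W4_mem P₀ M).2 ⟨hx, hq⟩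
      rw [← h5] at h6
      rw [QuotientGroup.eq_one_iff, Subgroup.mem_subgroupOf]
      exact h6
    · refine IsPGroup.map ?_ _
      refine h2.comap_of_ker_isPGroup _ ?_
      rw [QuotientGroup.ker_mk']
      exact hP₀.comap_subtype
    · intro x
      constructor
      · intro hx
        rw [W4_mem] at hx ⊢
        obtain ⟨hx, h5⟩ := hx
        exact ⟨M.mul_mem (M.mul_mem h.2 hx) (M.inv_mem h.2), (h3 _).1 h5⟩
      · intro hx
        rw [W4_mem] at hx ⊢
        obtain ⟨hx, h5⟩ := hx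
        have hx' : x ∈ M := by
          have := M.mul_mem (M.mul_mem (M.inv_mem h.2) hx) h.2
          have e : (h : G)⁻¹ * (h * x * (h : G)⁻¹) * h = x := by group
          rwa [e] at this
        refine ⟨hx', (h3 _).2 ?_⟩
        exact h5

end LEQ
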